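import Mathlib

set_option autoImplicit false

open unitInterval

namespace Pool.Agent.Results.MP_e504dd_lc.OnlyCp

/-- A fuzzy negation on `[0,1]`. -/
def IsNegation (N : I → I) : Prop := Antitone N ∧ N 0 = 1 ∧ N 1 = 0

/-- A fuzzy implication on `[0,1]`. -/
def IsImplication (J : I → I → I) : Prop :=
  (∀ y, Antitone fun x => J x y) ∧ (∀ x, Monotone (J x)) ∧ J 0 0 = 1 ∧ J 1 1 = 1 ∧ J 1 0 = 0

noncomputable def N (x : I) : I := σ (x * x)

noncomputable def J (x y : I) : I := if x ≤ y then 1 else 0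

lemma N_val (x : I) : (N x : ℝ) = 1 - x * x := by simp [N]

lemma N_le (x y : I) : N y ≤ N x ↔ x ≤ y := by
  rw [← Subtype.coe_le_coe, ← Subtype.coe_le_coe, N_val, N_val]
  have := x.2.1
  have := y.2.1
  constructor
  · intro h
    by_contra hc
    push Not at hc
    nlinarith
  · intro h
    nlinarith

theorem result : ∃ (J : I → I → I) (N : I → I), IsImplication J ∧ IsNegation N ∧
    (∀ x y, J x y = J (N y) (N x)) ∧ (∃ x y, J (N x) y ≠ J (N y) x) ∧
    ∃ x y, J x (N y) ≠ J y (N x) := by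
  refine ⟨J, N, ⟨fun y a b hab => ?_, fun x a b hab => ?_, by simp [J], by simp [J], by simp [J]⟩,
    ⟨fun a b hab => (N_le a b).2 hab, by simp [N], by simp [N]⟩, fun x y => ?_,
    ⟨⟨1 / 2, by norm_num⟩, ⟨72 / 100, by norm_num⟩, ?_⟩,
    ⟨⟨1 / 2, by norm_num⟩, ⟨72 / 100, by norm_num⟩, ?_⟩⟩
  · simp only [J]
    split_ifs with h1 h2 h2
    · exact le_rfl
    · exact (h2 (hab.trans h1)).elim
    · exact unitInterval.nonneg'
    · exact le_rfl
  · simp only [J]
    split_ifs with h1 h2 h2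
    · exact le_rfl
    · exact (h2 (h1.trans hab)).elim
    · exact unitInterval.nonneg'
    · exact le_rfl
  · simp only [J, N_le]
  · simp only [J, ← Subtype.coe_le_coe, N_val]
    norm_num
  · simp only [J, ← Subtype.coe_le_coe, N_val]
    norm_num

end Pool.Agent.Results.MP_e504dd_lc.OnlyCp
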